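import Pool.Agent.N848.SK.Stm
import Pool.Agent.N763.AW.Cls

/-!
# Project SK: translation from sets of primes to elements, for every condition on the sets (NSG)

The same as `t_NS5` of `Pool/Agent/N763/AW/Cls.lean` (helper763).
-/

set_option autoImplicit false

open scoped Classical

namespace Pool.Agent.N163.SK

open Finset
open Pool.Agent.Y698
open Pool.Agent.R426.QK
open Pool.Agent.N848.AW

theorem t_NSG : Pool.Agent.N848.SK.S_NSG := by
  intro hC G θ h
  refine h.congr fun X => ?_
  have e1 : {D : RR | nrm D ≤ X ∧ Cls5 D}.ncard = (S5 X).card := by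
    have h := Pool.Agent.N763.AW.card_eq hC X (fun _ => True)
    rw [Finset.filter_true] at h
    rw [← h]
    congr 1
    ext D
    simp only [Set.mem_ofPred_eq, and_true]
  have e2 : {D : RR | nrm D ≤ X ∧ Cls5 D ∧ G (Pool.Agent.R426.QK.PD D)}.ncard =
      ((S5 X).filter G).card := Pool.Agent.N763.AW.card_eq hC X G
  rw [e1, e2]

end Pool.Agent.N163.SK
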